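import Pool.Agent.Lib.MP_27775c_an_SR.Mc
import Pool.Agent.Lib.MP_27775c_an_SR.DefR

/-!
# MP_27775c_an: Ahlfors currents converge through all radii, for currents with shadowing

The setting is that of `DensityOneRadii`. `M` is a compact complex manifold, `F` a holomorphic
foliation by curves, singular along a closed set, `μ` the law of the universal covering
`φ : ℍ → leaf` of the leaf of a random point `a = φ i`, distributed according to `T ∧ ω_P`. The
geodesic of `φ` which ends at the boundary point `x` is `s ↦ φ (x + i e ^ s)`, `s → -∞`.

Idea of the proof. The lift of `μ` to the space of frames is invariant under the triangular group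
and, when `T` is not exceptional, ergodic for the unipotent group; so along a subsequence of any
sequence of radii the pushed horocycle averages converge at almost every frame. This passes to
every frame which is shadowed by a set of frames which is not negligible.
-/

set_option autoImplicit false

open MeasureTheory Set Filter Topology
open scoped Manifold UpperHalfPlane
open Pool.Agent.MP27775c.DO Pool.Agent.MP27775c.SR

namespace Pool.Agent.Results.MP_27775c_an.AllRadii

universe w

/-- Let `T`, given by `μ`, be an extremal harmonic current of the foliation `F` on the compact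
complex manifold `M`, carried by the hyperbolic leaves.

(A) Let the universal coverings of almost all leaves have a bounded derivative. If `T` is not
exceptional then the Ahlfors currents of every holomorphic map `φ : ℍ → M` with bounded derivative
which is shadowed by `μ` converge to `T / T(om)` through all radii. If almost every leaf is shadowed
then `T` is not exceptional if and only if the Ahlfors currents of almost every leaf converge
through all radii.

(B) In particular the same equivalence holds, without a condition on the derivatives, if `F` is a
suspension with compact fibre `Z` such that almost every leaf is stable along almost every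
geodesic. -/
theorem result {E : Type*} [NormedAddCommGroup E] [NormedSpace ℂ E] [FiniteDimensional ℂ E]
    {M : Type*} [TopologicalSpace M] [ChartedSpace E M] [IsManifold 𝓘(ℂ, E) 1 M] [CompactSpace M]
    [T2Space M] [MeasurableSpace M] [BorelSpace M] [MeasurableSpace C(ℍ, M)]
    [BorelSpace C(ℍ, M)] (F : Foliation E M) (om : Form E M)
    (hom : om.Pos) (μ : Measure C(ℍ, M)) [IsProbabilityMeasure μ]
    (hX : ∀ᵐ φ : C(ℍ, M) ∂μ, IsUniv F φ) (hH : IsHarm (pre M) μ) (hE : IsExt (pre M) μ) :
    (∀ C : ℝ, (∀ᵐ φ : C(ℍ, M) ∂μ, om.val (vel φ UpperHalfPlane.I) ≤ C) →
      (¬ IsExc (pre M) μ → ∀ φ : ℍ → M, Hol E φ →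
        (∃ C', ∀ z : ℍ, z.im ^ 2 * om.val (vel φ z) ≤ C') → Shadowed μ φ → ∀ θ : Form E M,
          Tendsto (sigma om θ φ) atTop (𝓝 (cur μ θ / cur μ om))) ∧
      ((∀ᵐ φ : C(ℍ, M) ∂μ, Shadowed μ φ) → (¬ IsExc (pre M) μ ↔ AllR F om μ))) ∧
    ∀ (Z : Type w) [TopologicalSpace Z] [CompactSpace Z] [SecondCountableTopology Z]
      (P : ℍ × Z → M), Susp F P → StabT μ P → (¬ IsExc (pre M) μ ↔ AllR F om μ) :=
  ⟨fun _ hB => main2 F hom hX hH hE hB, fun _ _ _ _ _ hP hs => main3 hP hom hX hH hE hs⟩

end Pool.Agent.Results.MP_27775c_an.AllRadii
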