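import Pool.Agent.Lib.MP_27775c_an_DO.Hm

/-!
# MP_27775c_an: Ahlfors currents converge along radii of density one, unless the current is
exceptional

`M` is a compact complex manifold modelled on the
finite dimensional complex space `E`, `F` a holomorphic foliation by curves, singular
along a closed set. The harmonic current `T` is given by a probability measure `μ` on the space
`C(ℍ, M)`, carried by the universal covering maps of hyperbolic leaves: `μ` is the law of the
universal covering map `φ` of the leaf of a random point `a = φ i`, distributed according to the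
normalised measure `T ∧ ω_P` (`ω_P` the Poincaré metric of the leaves), the direction of `φ'(i)`
being uniform. That `T` is harmonic means that `T ∧ ω_P` is invariant under the leafwise spherical
means of all radii (`IsHarm`). `T ∧ ω_P (θ / ω_P) = cur μ θ = ∫ θ (φ'(i), i φ'(i)) ∂μ(φ)`.
-/

set_option autoImplicit false

open MeasureTheory Set Filter Topology
open scoped Manifold UpperHalfPlane
open Pool.Agent.MP27775c.DO

namespace Pool.Agent.Results.MP_27775c_an.DensityOneRadii

/-- Let `T`, given by `μ`, be an extremal harmonic current of the foliation `F` on the compact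
complex manifold `M`, of finite Poincaré mass (`μ` is a probability measure) and finite mass (`hi`),
carried by the hyperbolic leaves (`hX`). The following are equivalent.

(i) `T` is not exceptional (`IsExc`): `T` is exceptional if its densities on the leaves are Poisson
kernels of one boundary point of every leaf, and if there is a non constant measurable function
which is constant on the horocycles centred at this boundary point.

(ii) For almost every point `a` there is a set `D` of radii, of density one, such that the Ahlfors
currents of radii in `D` of the leaf of `a` converge to the normalised current `T / T(om)`.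

(iii) The Ahlfors currents converge in the mean: for every form `θ` the integral over `a` of
`|σ_R(θ) - T(θ) / T(om)|` tends to zero as `R → ∞`. -/
theorem result {E : Type*} [NormedAddCommGroup E] [NormedSpace ℂ E] [FiniteDimensional ℂ E]
    {M : Type*} [TopologicalSpace M] [ChartedSpace E M] [IsManifold 𝓘(ℂ, E) 1 M] [CompactSpace M]
    [T2Space M] [MeasurableSpace M] [BorelSpace M] [MeasurableSpace C(ℍ, M)]
    [BorelSpace C(ℍ, M)] (F : Foliation E M) (om : Form E M)
    (hom : om.Pos) (μ : Measure C(ℍ, M)) [IsProbabilityMeasure μ]
    (hX : ∀ᵐ φ : C(ℍ, M) ∂μ, IsUniv F φ) (hH : IsHarm (pre M) μ) (hE : IsExt (pre M) μ)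
    (hi : Integrable (fun φ : C(ℍ, M) => om.val (vel φ UpperHalfPlane.I)) μ) :
    (¬ IsExc (pre M) μ ↔
      ∀ᵐ a ∂(μ.map fun φ : C(ℍ, M) => φ UpperHalfPlane.I), ∃ D, DensOne D ∧
        ∀ φ : ℍ → M, IsUniv F φ → φ UpperHalfPlane.I = a → ∀ θ : Form E M,
          Tendsto (sigma om θ φ) (atTop ⊓ 𝓟 D) (𝓝 (cur μ θ / cur μ om))) ∧
    (¬ IsExc (pre M) μ ↔ ∀ θ : Form E M, Tendsto (fun R : ℝ =>
      ∫ φ : C(ℍ, M), |sigma om θ φ R - cur μ θ / cur μ om| ∂μ) atTop (𝓝 0)) :=
  main_iff F hom hX hH hE hi

end Pool.Agent.Results.MP_27775c_an.DensityOneRadii
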