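import Pool.Agent.Lib.MP_27775c_an_AHL.Cv

/-!
# MP_27775c_an: convergence of Ahlfors currents for flat projective bundles

Let `M = Γ \ (D × P(ℂ ^ d))` be the flat projective bundle over the compact curve `Γ \ D` given by a
strongly irreducible and contracting linear representation `ρ` of `Γ`, with its horizontal foliation
(all leaves are hyperbolic). There is exactly one normalised positive `dd^c`-closed directed current
`T`, and the Ahlfors averages of every point converge to `T`, uniformly in the point.
-/

set_option autoImplicit false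

open Pool.Agent.MP27775c.AHL.Stmt

namespace Pool.Agent.Results.MP_27775c_an.FlatProjectiveBundles

/-- Uniqueness of the harmonic current and uniform convergence of the Ahlfors averages of all points,
for the horizontal foliation of a flat projective bundle over a compact hyperbolic curve with
strongly irreducible contracting monodromy, and any leafwise metric `ω` (the restriction of a
Kähler form to the leaves). -/
theorem result {Γ : Type*} [Group Γ] {d : ℕ} (j : Γ →* Matrix.SpecialLinearGroup (Fin 2) ℂ)
    (ρ : Γ →* Matrix (Fin d) (Fin d) ℂ) (hj : IsUniform j) (hs : StronglyIrreducible ρ)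
    (hc : Contracting ρ) (ω : ℂ → (Fin d → ℂ) → ℝ) (hω : IsLeafForm j ρ ω)
    (hpos : ∀ z v, ‖z‖ < 1 → v ≠ 0 → 0 < ω z v) :
    ∃ T : (ℂ → (Fin d → ℂ) → ℝ) → ℝ, IsHarmonicCurrent j ρ T ∧ T ω = 1 ∧
      (∀ T', IsHarmonicCurrent j ρ T' → T' ω = 1 → ∀ θ, IsLeafForm j ρ θ → T' θ = T θ) ∧
      ∀ θ, IsLeafForm j ρ θ → ∀ ε : ℝ, 0 < ε → ∃ r₀ : ℝ, r₀ < 1 ∧ ∀ r, r₀ < r → r < 1 →
        ∀ z v, ‖z‖ < 1 → v ≠ 0 → |ahlfors ω θ z v r - T θ| < ε :=
  Pool.Agent.MP27775c.AHL.final hj hs hc hω hpos

end Pool.Agent.Results.MP_27775c_an.FlatProjectiveBundles
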