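import Pool.Agent.Lib.MP_27775c_an_SR.Me

/-!
# MP_27775c_an: Ahlfors currents of suspensions with attracting leaves converge through all radii

`M` is a compact complex manifold which is the image of `ℍ × Z` under a map `P` (`Susp`): the leaves
of the holomorphic foliation `F` are the images of the sets `ℍ × {v}`; for example `P` is the
quotient map of `ℍ × Z` by a torsion free cocompact Fuchsian group which acts holomorphically on the
compact complex manifold `Z`. The extremal harmonic current `T` is given by the law `μ` of the
universal covering `φ : ℍ → leaf` of the leaf of a random point `a = φ i`, distributed according to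
`T ∧ ω_P`. The geodesics of the leaf of `v` which come from the point at infinity are
`s ↦ P (x + i e ^ s, v)`, `s → -∞`.
-/

set_option autoImplicit false

open MeasureTheory Set Filter Topology
open scoped Manifold UpperHalfPlane
open Pool.Agent.MP27775c.DO Pool.Agent.MP27775c.SR

namespace Pool.Agent.Results.MP_27775c_an.StableSuspensions

/-- Let the foliation `F` of the compact complex manifold `M` be a suspension with compact fibre
`Z` (`Susp`, `InjP`), and let `T`, given by `μ`, be an extremal harmonic current of `F` such that
almost every leaf attracts the nearby leaves along almost every geodesic (`ContrT`). Then: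

(1) the Ahlfors currents of every leaf in the support of `T` which is stable along almost every
geodesic, about every point of the leaf, converge to `T / T(om)` through all radii `R → ∞`;

(2) the same holds for the leaf of almost every point `a`. -/
theorem result {E : Type*} [NormedAddCommGroup E] [NormedSpace ℂ E] [FiniteDimensional ℂ E]
    {M : Type*} [TopologicalSpace M] [ChartedSpace E M] [IsManifold 𝓘(ℂ, E) 1 M] [CompactSpace M]
    [T2Space M] [MeasurableSpace M] [BorelSpace M] [MeasurableSpace C(ℍ, M)]
    [BorelSpace C(ℍ, M)] {Z : Type*} [TopologicalSpace Z] [CompactSpace Z]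
    [SecondCountableTopology Z] (F : Foliation E M) (P : ℍ × Z → M) (hP : Susp F P)
    (hi : InjP P) (om : Form E M) (hom : om.Pos) (μ : Measure C(ℍ, M)) [IsProbabilityMeasure μ]
    (hX : ∀ᵐ φ : C(ℍ, M) ∂μ, IsUniv F φ) (hH : IsHarm (pre M) μ) (hE : IsExt (pre M) μ)
    (hc : ContrT μ P) :
    (∀ v : Z, Charged μ P v → (∀ᵐ x : ℝ, Stab P v x) → ∀ (g : G) (θ : Form E M),
      Tendsto (sigma om θ fun z => P (g • z, v)) atTop (𝓝 (cur μ θ / cur μ om))) ∧
    AllR F om μ :=
  main5 hP hi hom hX hH hE hc

end Pool.Agent.Results.MP_27775c_an.StableSuspensions
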